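import Pool.Agent.P.MP_b94424_al.Main

set_option autoImplicit false

namespace Pool.Agent.Results.MP_b94424_al.NoWitness

open Pool.Agent.P.MP_b94424_al

/-- There are distinct positive words `u ≠ v` in two letters with the same letter counts such that
the word `w = u⁻¹ v` of the free group has positive real trace at every pair `A, B ∈ SU(2)`.
(Witness: `u = (ab)³ ba (ab)² ba`, `v = ba (ab)² ba (ab)³`.) -/
theorem result : ∃ u v : List (Fin 2), u ≠ v ∧ (∀ i, u.count i = v.count i) ∧
    ∀ A B : Matrix.specialUnitaryGroup (Fin 2) ℂ, ∃ t : ℝ, 0 < t ∧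
      ((FreeGroup.lift ![A, B] ((u.map FreeGroup.of).prod⁻¹ * (v.map FreeGroup.of).prod) :
        Matrix.specialUnitaryGroup (Fin 2) ℂ) : Matrix (Fin 2) (Fin 2) ℂ).trace = t := by
  refine ⟨[0, 1, 0, 1, 0, 1, 1, 0, 0, 1, 0, 1, 1, 0], [1, 0, 0, 1, 0, 1, 1, 0, 0, 1, 0, 1, 0, 1],
    by decide, by decide, fun A B => ?_⟩
  have h := key (A * B) (B * A) (Matrix.trace_mul_comm (B : M2) (A : M2))
  simp only [map_mul, map_inv, List.map_cons, List.map_nil, List.prod_cons, List.prod_nil,
    FreeGroup.lift_apply_of, Matrix.cons_val_zero, Matrix.cons_val_one, mul_one]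
  simp only [mul_assoc] at h ⊢
  exact h

end Pool.Agent.Results.MP_b94424_al.NoWitness
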